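import Pool.Agent.N748.MJ.Fin
import Pool.Agent.Run7.h651.WN.EQC
import Pool.Agent.Run7.h701.T5.G

set_option autoImplicit false

/-!
# The joint normal law of the shifts in the shifted moment measures of all real orders, near the critical line

Let `δ = d(T) → 0` with `δ log T / log² (1/δ) → ∞`, let `h_1, ..., h_m` be shifts with `|h_j(T)| ≤ √T`, such that
`log |ζ(1 + 2δ + i(h_j - h_l))| / log (1/δ)` converges to `C_jl`, and let `k_1, ..., k_m` be any real numbers (of any signs, also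
zero). Let `V` be larger than every `|∑_l C_jl k_l|`. On the set of the `t ∈ [0, T]` at which all `|ζ(1/2 + δ + i(t + h_j))|` lie
between `(2δ)^V` and `(2δ)^(-V)` we consider the probability measure with density proportional to
`∏_j |ζ(1/2 + δ + i(t + h_j))|^(2 k_j)`, the measure of the shifted moments. In this measure the vector
`Y_j = (log |ζ(1/2 + δ + i(t + h_j))| - ∑_l k_l log |ζ(1 + 2δ + i(h_j - h_l))|) / √(½ log (1/δ))`
converges in law to the centred normal law with the covariance matrix `C`, together with all exponential moments.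
For fixed distinct shifts `C` is the unit matrix: the values of `log |ζ|` at the shifts are asymptotically independent; for shifts
at distance `O(δ)`, as in the problem, they agree to first order.

Question and statement of the first form by helper291; the method (characteristic functions of the tilted law from the joint
complex moments, continuity of the arithmetic factor) is that of helper651's part of `MP_973905_nt.CriticalWindows`; the joint
moments outside tiny sets (`N748/MJ`) are in the starting tree. Proof: helper701.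
-/

namespace Pool.Agent.Results.MP_069854_nt.GaussianShiftedMoments

open MeasureTheory Filter Topology

variable {m : ℕ}

/-- `|ζ(1/2 + δ + iu)|` -/
noncomputable def z (δ u : ℝ) : ℝ := ‖riemannZeta (1 / 2 + δ + u * Complex.I)‖

/-- `log |ζ(1 + 2δ + iu)|` -/
noncomputable def ell (δ u : ℝ) : ℝ := Real.log ‖riemannZeta (1 + 2 * δ + u * Complex.I)‖

/-- the matrix `C` of the correlations of the shifts `h T` -/
def Corr (d : ℝ → ℝ) (h : ℝ → Fin m → ℝ) (C : Matrix (Fin m) (Fin m) ℝ) : Prop :=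
  ∀ j l, Tendsto (fun T : ℝ => ell (d T) (h T j - h T l) / Real.log (1 / d T)) atTop (𝓝 (C j l))

/-- the `t ∈ [0, T]` at which all `|ζ(1/2 + δ + i(t + h_j))|` lie between `(2δ)^V` and `(2δ)^(-V)` -/
def G (V T δ : ℝ) (h : Fin m → ℝ) : Set ℝ :=
  {t : ℝ | t ∈ Set.Icc 0 T ∧ ∀ j, (2 * δ) ^ V ≤ z δ (t + h j) ∧ z δ (t + h j) ≤ (2 * δ) ^ (-V)}

/-- the weight `∏_j |ζ(1/2 + δ + i(t + h_j))|^(2 k_j)` -/
noncomputable def w (k h : Fin m → ℝ) (δ t : ℝ) : ℝ := ∏ j, z δ (t + h j) ^ (2 * k j)

/-- the vector of the normalised logarithms -/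
noncomputable def Y (k h : Fin m → ℝ) (δ t : ℝ) : EuclideanSpace ℝ (Fin m) :=
  WithLp.toLp 2 fun j =>
    (Real.log (z δ (t + h j)) - ∑ l, k l * ell δ (h j - h l)) / Real.sqrt (Real.log (1 / δ) / 2)

/-- the mean of `F (Y)` in the probability measure on `G V T δ h` with density proportional to the weight -/
noncomputable def Ex {E : Type*} [NormedAddCommGroup E] [NormedSpace ℝ E] (V T : ℝ) (k h : Fin m → ℝ) (δ : ℝ)
    (F : EuclideanSpace ℝ (Fin m) → E) : E :=
  (∫ t in G V T δ h, w k h δ t)⁻¹ • ∫ t in G V T δ h, w k h δ t • F (Y k h δ t)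

open Run7.h701.T5 Pool.Agent.N748.MG Pool.Agent.N748.MJ

lemma z_eq (δ u : ℝ) : z δ u = mz δ u := rfl

lemma w_eq (k h : Fin m → ℝ) (δ t : ℝ) : w k h δ t = SM.G k h δ t := rfl

lemma G_eq (V T δ : ℝ) (h : Fin m → ℝ) : G V T δ h = EE V h δ T := rfl

lemma ell_eq {δ : ℝ} (h0 : 0 < δ) (h1 : δ ≤ 1 / 16) (h : Fin m → ℝ) (j l : Fin m) : ell δ (h j - h l) = rr h δ j l :=
  (rr_log LZB.main h0 h1 h j l).symm

lemma Y_eq {δ : ℝ} (h0 : 0 < δ) (h1 : δ ≤ 1 / 16) (k h : Fin m → ℝ) (t : ℝ) : Y k h δ t = yv k h δ t := by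
  unfold Y yv yy ctr sc
  congr 1
  funext j
  simp_rw [ell_eq h0 h1 h]
  rfl

lemma corr_one (d : ℝ → ℝ) (hd : Ad d) (u : Fin m → ℝ) (hu : Function.Injective u) :
    Corr d (fun _ => u) (1 : Matrix (Fin m) (Fin m) ℝ) := by
  intro j l
  have hL := L_tend hd
  by_cases hjl : j = l
  · subst hjl
    rw [Matrix.one_apply_eq]
    obtain ⟨C, hC0, hC⟩ := Run7.h651.WN.LZ_zero LZB.main
    have h1 : Tendsto (fun T => C / Real.log (1 / d T)) atTop (𝓝 0) := hL.const_div_atTop C
    have h2 : Tendsto (fun T => ell (d T) (u j - u j) / Real.log (1 / d T) - 1) atTop (𝓝 0) := by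
      refine squeeze_zero_norm' ?_ h1
      filter_upwards [hd.pos, (Ev.of_le (d := 1 / 16) (by norm_num)).app hd, hL.eventually_gt_atTop 0] with T g1 g2 g3
      have e1 := hC (d T) g1 g2
      rw [ell_eq g1 g2 u j j]
      unfold rr
      rw [sub_self]
      have e2 : (LZ (1 + 2 * d T) 0).re / Real.log (1 / d T) - 1 =
          ((LZ (1 + 2 * d T) 0).re - Real.log (1 / d T)) / Real.log (1 / d T) := by
        field_simp
      rw [e2, norm_div, Real.norm_eq_abs, Real.norm_eq_abs, abs_of_pos g3]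
      exact div_le_div_of_nonneg_right e1 g3.le
    have h3 := h2.add_const 1
    simpa using h3
  · rw [Matrix.one_apply_ne hjl]
    have hne : u j - u l ≠ 0 := sub_ne_zero.2 fun h => hjl (hu h)
    set s0 : ℂ := 1 + ((u j - u l : ℝ) : ℂ) * Complex.I with hs0
    have hs1 : s0 ≠ 1 := by
      intro h
      have := congrArg Complex.im h
      rw [hs0] at this
      simp at this
      exact hne (by linarith)
    have hz0 : riemannZeta s0 ≠ 0 := riemannZeta_ne_zero_of_one_le_re (by rw [hs0]; simp)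
    have h1 : Tendsto (fun T => (1 + 2 * (d T : ℂ) + ((u j - u l : ℝ) : ℂ) * Complex.I : ℂ)) atTop (𝓝 s0) := by
      have g1 : Tendsto (fun T => ((d T : ℝ) : ℂ)) atTop (𝓝 ((0:ℝ) : ℂ)) :=
        (Complex.continuous_ofReal.tendsto 0).comp hd.t0
      have g2 := ((g1.const_mul 2).const_add 1).add_const (((u j - u l : ℝ) : ℂ) * Complex.I)
      simpa [hs0] using g2
    have h2 : Tendsto (fun T => ell (d T) (u j - u l)) atTop (𝓝 (Real.log ‖riemannZeta s0‖)) := by
      have g1 := ((differentiableAt_riemannZeta hs1).continuousAt.tendsto.comp h1).norm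
      exact (Real.continuousAt_log (norm_ne_zero_iff.2 hz0)).tendsto.comp g1
    exact h2.div_atTop hL

theorem result (d : ℝ → ℝ) (hd0 : ∀ᶠ T : ℝ in atTop, 0 < d T) (hd : Tendsto d atTop (𝓝 0))
    (hdL : Tendsto (fun T : ℝ => d T * Real.log T / Real.log (1 / d T) ^ 2) atTop atTop) :
    -- the law for arbitrary shifts and real orders
    (∀ (m : ℕ) (h : ℝ → Fin m → ℝ) (C : Matrix (Fin m) (Fin m) ℝ) (k : Fin m → ℝ) (V : ℝ),
      (∀ᶠ T : ℝ in atTop, ∀ j, |h T j| ≤ Real.sqrt T) → Corr d h C → (∀ j, |∑ l, C j l * k l| < V) →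
      C.PosSemidef ∧ (∀ j, C j j = 1) ∧ (∀ᶠ T : ℝ in atTop, 0 < ∫ t in G V T (d T) (h T), w k (h T) (d T) t) ∧
      -- exponential moments
      (∀ ξ : Fin m → ℂ, Tendsto (fun T : ℝ => Ex V T k (h T) (d T) fun y => Complex.exp (∑ j, ξ j * (y j : ℝ))) atTop
        (𝓝 (Complex.exp ((∑ j, ∑ l, (C j l : ℂ) * ξ j * ξ l) / 2)))) ∧
      -- test functions of exponential growth
      ∀ Ψ : EuclideanSpace ℝ (Fin m) → ℝ, Continuous Ψ → (∃ A : ℝ, ∀ y, |Ψ y| ≤ A * Real.exp (A * ∑ j, |y j|)) →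
        Integrable Ψ (ProbabilityTheory.multivariateGaussian 0 C) ∧
        Tendsto (fun T : ℝ => Ex V T k (h T) (d T) Ψ) atTop
          (𝓝 (∫ y, Ψ y ∂(ProbabilityTheory.multivariateGaussian 0 C)))) ∧
    -- fixed distinct shifts: the unit matrix
    ∀ (m : ℕ) (u : Fin m → ℝ), Function.Injective u → Corr d (fun _ => u) (1 : Matrix (Fin m) (Fin m) ℝ) := by
  have hA : Ad d := ⟨hd0, hd, hdL⟩
  refine ⟨fun m h C k V hh hC hV => ?_, fun m u hu => corr_one d hA u hu⟩
  have hsm : ∀ᶠ T in atTop, 0 < d T ∧ d T ≤ 1 / 16 := hd0.and ((Ev.of_le (d := 1 / 16) (by norm_num)).app hA)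
  have hh' : ∀ᶠ T : ℝ in atTop, ∀ j, |h T j| ≤ T ^ ((1:ℝ) / 2) := by
    filter_upwards [hh] with T hT j
    rw [← Real.sqrt_eq_rpow]
    exact hT j
  have hC' : ∀ j l, Tendsto (fun T => rr (h T) (d T) j l / Real.log (1 / d T)) atTop (𝓝 (C j l)) := by
    intro j l
    refine (hC j l).congr' ?_
    filter_upwards [hsm] with T hT
    rw [ell_eq hT.1 hT.2]
  have hV' : ∀ i, |∑ l, k l * C i l| < V := by
    intro i
    have := hV i
    simp_rw [mul_comm] at this ⊢
    exact this
  obtain ⟨g1, g2, g3, g4⟩ := main2 jmF posF LZB.main Run7.h651.WN.eqc hA k hh' hC' hV'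
  refine ⟨g1, fun j => ?_, g2, fun ξ => ?_, fun Ψ hΨ hb => ⟨(g4 Ψ hΨ hb).1, ?_⟩⟩
  · have e1 := corr_one (m := 1) d hA (fun _ => 0) (fun a b _ => Subsingleton.elim a b) 0 0
    have e2 := hC j j
    simp only [sub_self, Matrix.one_apply_eq] at e1 e2
    exact tendsto_nhds_unique e2 e1
  · have e1 := g3 ξ
    have e2 : (∑ j, ∑ l, (C j l : ℂ) * ξ j * ξ l) / 2 = Qc C ξ := by
      unfold Qc
      rw [Finset.sum_div]
      refine Finset.sum_congr rfl fun j _ => ?_
      rw [Finset.sum_div]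
      refine Finset.sum_congr rfl fun l _ => ?_
      push_cast
      ring
    rw [e2]
    refine e1.congr' ?_
    filter_upwards [hsm] with T hT
    unfold Ex
    rw [II_zero, div_eq_inv_mul]
    have e3 : (∫ t in G V T (d T) (h T), w k (h T) (d T) t) = MM k (h T) (d T) (EE V (h T) (d T) T) := rfl
    rw [e3, Complex.real_smul, Complex.ofReal_inv]
    congr 1
    unfold II
    refine integral_congr_ae (Eventually.of_forall fun t => ?_)
    show (SM.G k (h T) (d T) t : ℂ) * Complex.exp (∑ j, ξ j * ((yy k (h T) (d T) t j : ℝ) : ℂ)) =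
      w k (h T) (d T) t • Complex.exp (∑ j, ξ j * ((Y k (h T) (d T) t) j : ℝ))
    rw [Y_eq hT.1 hT.2, Complex.real_smul]
    rfl
  · refine (g4 Ψ hΨ hb).2.congr' ?_
    filter_upwards [hsm] with T hT
    unfold Ex
    have e3 : (∫ t in G V T (d T) (h T), w k (h T) (d T) t) = MM k (h T) (d T) (EE V (h T) (d T) T) := rfl
    rw [e3, div_eq_inv_mul, smul_eq_mul]
    congr 1
    refine integral_congr_ae (Eventually.of_forall fun t => ?_)
    show Ψ (yv k (h T) (d T) t) * SM.G k (h T) (d T) t = w k (h T) (d T) t • Ψ (Y k (h T) (d T) t)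
    rw [Y_eq hT.1 hT.2, smul_eq_mul, mul_comm]
    rfl

end Pool.Agent.Results.MP_069854_nt.GaussianShiftedMoments
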