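import Pool.Agent.Run7.h42.LP.App7
import Pool.Agent.N748.MJ.Fin
import Pool.Agent.Run7.h651.WN.EQC

set_option autoImplicit false

/-!
# MP_069854_nt: exact joint large deviations of zeta at arbitrary shifts near the critical line

Let `δ = δ(T) → 0` with `δ log T / log² (1/δ) → ∞`. For `m` shifts `h = h(T)` with `|h_j| ≤ √T` put
`X_j(t) = log |ζ(1/2 + δ + i(t + h_j))|` and let `R` be the matrix of the numbers `log |ζ(1 + 2δ + i(h_j - h_l))|`.
The shifts are separated, if the form of `R` is at least `c log (1/δ) |ξ|²` for some fixed `c > 0`.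

* For separated shifts, real exponents `k_j` with `κ ≤ |k_j| ≤ K` (they may depend on `T` as well), the proportion of the
  `t ∈ [0, T]` with `X_j(t) > (R k)_j` for the `j` with `k_j > 0` and `X_j(t) < (R k)_j` for the `j` with `k_j < 0` is
  asymptotic to `a(k, h) exp (- k R k) / (π^(m/2) √(det R) ∏ 2|k_j|)`, with the arithmetic factor `a(k, h)` of the shifted
  moments `∏ |ζ(1/2 + i(t + h_j))|^(2 k_j)`.
* More generally, for fixed real `k_j` (also zero) the law of the vector `X - R k`, multiplied by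
  `π^(m/2) √(det R) exp (k R k) / a(k, h)`, converges to the measure `exp (- 2 k x) dx` on `ℝ^m`, for all test functions `g`
  which are continuous outside a null set and with `|g(x)| ∏ (1 + x_j²) = O(exp (2 k x))`.
* For fixed distinct shifts and all real `k_j ≠ 0` the proportion of the `t` with `|ζ(1/2 + δ + i(t + h_j))| > (2δ)^(-k_j)`
  (`<` for the `j` with `k_j < 0`) for all `j` is asymptotic to
  `a(k, h) ∏_{j ≠ l} |ζ(1 + i(h_j - h_l))|^(k_j k_l) ∏_j (2δ)^(k_j²) / (2 |k_j| √(π log (1/(2δ))))`.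
-/

namespace Pool.Agent.Results.MP_069854_nt.JointLargeDeviations

open MeasureTheory Filter Topology Complex Finset

noncomputable section

variable {m : ℕ}

/-- The coefficient of `x ^ n` in `(1 - x) ^ (-k)`. -/
def binom (k : ℝ) (n : ℕ) : ℝ := ∏ i ∈ range n, (k + i) / (i + 1)

/-- The coefficient of `x ^ n` in `∏ j, (1 - p ^ (-i h j) x) ^ (-k j)`. -/
def coef (k h : Fin m → ℝ) (p n : ℕ) : ℂ :=
  ∑ μ ∈ piAntidiag univ n, ∏ j, (binom (k j) (μ j) : ℂ) * (p : ℂ) ^ (-(((μ j : ℝ) * h j : ℝ) * I))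

/-- The arithmetic factor `a(k, h)`: the product over the primes `p` of
`∏_{j, l} |1 - p ^ (-1 - i (h j - h l))| ^ (k j k l) ∑_n |coef k h p n| ^ 2 / p ^ n`. -/
def arith (k h : Fin m → ℝ) : ℝ :=
  ∏' p : Nat.Primes, (∏ j, ∏ l, ‖1 - ((p : ℕ) : ℂ) ^ (-(1 + ((h j - h l : ℝ) : ℂ) * I))‖ ^ (k j * k l)) *
    ∑' n : ℕ, ‖coef k h p n‖ ^ 2 / ((p : ℕ) : ℝ) ^ n

/-- `log |ζ(1/2 + δ + i (t + h j))|`. -/
def X (δ : ℝ) (h : Fin m → ℝ) (t : ℝ) (j : Fin m) : ℝ :=
  Real.log ‖riemannZeta (1 / 2 + δ + (t + h j) * I)‖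

/-- The matrix of the `log |ζ(1 + 2δ + i (h j - h l))|`. -/
def R (δ : ℝ) (h : Fin m → ℝ) : Matrix (Fin m) (Fin m) ℝ :=
  Matrix.of fun j l => Real.log ‖riemannZeta (1 + 2 * δ + (h j - h l) * I)‖

/-- The admissible distances to the critical line. -/
def Admissible (d : ℝ → ℝ) : Prop :=
  (∀ᶠ T : ℝ in atTop, 0 < d T) ∧ Tendsto d atTop (𝓝 0) ∧
    Tendsto (fun T : ℝ => d T * Real.log T / Real.log (1 / d T) ^ 2) atTop atTop

/-- The separated shifts. -/
def Separated (d : ℝ → ℝ) (h : ℝ → Fin m → ℝ) : Prop :=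
  (∀ᶠ T : ℝ in atTop, ∀ j, |h T j| ≤ Real.sqrt T) ∧
    ∃ c : ℝ, 0 < c ∧ ∀ᶠ T : ℝ in atTop, ∀ ξ : Fin m → ℝ,
      c * Real.log (1 / d T) * ∑ j, ξ j ^ 2 ≤ ξ ⬝ᵥ (R (d T) (h T)).mulVec ξ

/-- Exact joint large deviations of zeta at arbitrary shifts near the critical line. -/
theorem result :
    -- orthants: all large or small values, exponents which may depend on `T`
    (∀ (m : ℕ) (d : ℝ → ℝ) (h k : ℝ → Fin m → ℝ) (κ K : ℝ), Admissible d → Separated d h → 0 < κ →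
      (∀ T j, κ ≤ |k T j| ∧ |k T j| ≤ K) →
      Tendsto (fun T : ℝ => ((1 / T) * (volume {t : ℝ | 0 ≤ t ∧ t ≤ T ∧
          ∀ j, 0 < k T j * (X (d T) (h T) t j - (R (d T) (h T)).mulVec (k T) j)}).toReal) /
        (arith (k T) (h T) * Real.exp (-(k T ⬝ᵥ (R (d T) (h T)).mulVec (k T))) /
          (Real.sqrt Real.pi ^ m * Real.sqrt (R (d T) (h T)).det * ∏ j, (2 * |k T j|)))) atTop (𝓝 1)) ∧
    -- general test functions
    (∀ (m : ℕ) (d : ℝ → ℝ) (h : ℝ → Fin m → ℝ) (k : Fin m → ℝ) (g : (Fin m → ℝ) → ℝ)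
      (S : Set (Fin m → ℝ)) (M : ℝ), Admissible d → Separated d h → Measurable g → volume S = 0 →
      (∀ x, x ∉ S → ContinuousAt g x) → (∀ x, |g x| ≤ M) →
      (∀ x, |g x| * ∏ j, (1 + x j ^ 2) ≤ M * Real.exp (2 * ∑ j, k j * x j)) →
      Tendsto (fun T : ℝ => Real.sqrt Real.pi ^ m * Real.sqrt (R (d T) (h T)).det *
          Real.exp (k ⬝ᵥ (R (d T) (h T)).mulVec k) / arith k (h T) *
          ((1 / T) * ∫ t in (0:ℝ)..T, g (fun j => X (d T) (h T) t j - (R (d T) (h T)).mulVec k j))) atTop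
        (𝓝 (∫ x : Fin m → ℝ, Real.exp (-(2 * ∑ j, k j * x j)) * g x))) ∧
    -- fixed distinct shifts
    (∀ (m : ℕ) (d : ℝ → ℝ) (h k : Fin m → ℝ), Admissible d → Function.Injective h → (∀ j, k j ≠ 0) →
      Tendsto (fun T : ℝ => ((1 / T) * (volume {t : ℝ | 0 ≤ t ∧ t ≤ T ∧
          ∀ j, 0 < k j * (X (d T) h t j - k j * Real.log (1 / (2 * d T)))}).toReal) /
        (arith k h * (∏ j, ∏ l ∈ univ.erase j, ‖riemannZeta (1 + ((h j - h l : ℝ) : ℂ) * I)‖ ^ (k j * k l)) *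
          ∏ j, ((2 * d T) ^ (k j ^ 2) / (2 * |k j| * Real.sqrt (Real.pi * Real.log (1 / (2 * d T)))))))
        atTop (𝓝 1)) ∧
    -- the arithmetic factor is positive, and fixed distinct shifts are separated
    (∀ (m : ℕ) (k h : Fin m → ℝ), 0 < arith k h) ∧
    (∀ (m : ℕ) (d : ℝ → ℝ) (h : Fin m → ℝ), Admissible d → Function.Injective h → Separated d (fun _ => h)) := by
  have hZ := Pool.Agent.N748.MJ.LZB.main
  have hJ := Pool.Agent.N748.MJ.jmF
  have hP := Pool.Agent.N748.MJ.posF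
  have hE := Run7.h651.WN.eqc
  have hAd : ∀ {d : ℝ → ℝ}, Admissible d → Pool.Agent.N748.MG.Ad d := fun hd => ⟨hd.1, hd.2.1, hd.2.2⟩
  refine ⟨?_, ?_, ?_, ?_, ?_⟩
  · intro m d h k κ K hd hs hκ hk
    obtain ⟨hs1, c, hc, hs2⟩ := hs
    exact Run7.h42.LP.plain2 hJ hP hZ hE (hAd hd) hs1 hc hs2 k hκ hk
  · intro m d h k g S M hd hs hg hS hgc hM hM2
    obtain ⟨hs1, c, hc, hs2⟩ := hs
    exact Run7.h42.LP.plain1 hJ hP hZ hE (hAd hd) hs1 hc hs2 k g S hS hg hgc M hM hM2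
  · intro m d h k hd hh hk
    exact Run7.h42.LP.plain3 hJ hP hZ hE (hAd hd) hh hk
  · intro m k h
    exact Run7.h42.LP.arith_pos k h
  · intro m d h hd hh
    refine ⟨eventually_all.2 fun j => Real.tendsto_sqrt_atTop.eventually_ge_atTop _, 1 / 2, by norm_num, ?_⟩
    have hsm : ∀ᶠ T : ℝ in atTop, 0 < d T ∧ d T ≤ 1 / 16 := by
      filter_upwards [hd.1, hd.2.1.eventually_le_const (show (0 : ℝ) < 1 / 16 by norm_num)] with T a b
      exact ⟨a, b⟩
    filter_upwards [Run7.h42.LP.sep_fixed hZ hh (hAd hd), hsm] with T hT hT2 ξ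
    have h1 := hT ξ
    rw [← mul_assoc, ← Run7.h42.LP.RM_dot hZ hT2.1 hT2.2] at h1
    exact h1

end

end Pool.Agent.Results.MP_069854_nt.JointLargeDeviations
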