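import Pool.Agent.Run7.h563.LS.ZA

set_option autoImplicit false

/-!
# Shifted moments of zeta and the microscopic landscape: limit laws for every real order

Unconditional. Let `T → ∞`, `D √(log T) → ∞` and `D ≤ T / (2 log T)`. For every real `β > 0` the laws of all
derivatives of zeta at `1/2 + it`, divided by zeta and by the powers of `log T`, with respect to
`|ζ(1/2 + it)| ^ β exp (-((t - T)/D) ^ 2) dt`, are tight, and every limit law is the law of the Taylor
coefficients of a random entire function `f` of exponential type at most one with `f(0) = 1`,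
`f(-z) = e^z conj (f (conj z))` and the exact invariance
`E |f(is)| ^ β g (f(is + .)/f(is)) = E g (f)`. If `β = 2k`, then along the same subsequence the shifted moments
of order `2k`, divided by the moment, converge to `E f(2iα) ^ k` for all real `α` at once.
-/

namespace Pool.Agent.Results.MP_069854_nt.LandscapeOfShifts

open MeasureTheory Filter Topology

noncomputable section

/-- the Gaussian weight of the window of centre `T` and width `D` -/
def weight (T D t : ℝ) : ℝ := Real.exp (-((t - T) / D) ^ 2)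

/-- the mean of `g` over the window, with respect to `|ζ(1/2 + it)| ^ β` -/
def mean (β T D : ℝ) (g : ℝ → ℝ) : ℝ :=
  (∫ t : ℝ, ‖riemannZeta (1 / 2 + t * Complex.I)‖ ^ β * weight T D t * g t) /
    ∫ t : ℝ, ‖riemannZeta (1 / 2 + t * Complex.I)‖ ^ β * weight T D t

/-- the derivatives of zeta at `1/2 + it`, divided by zeta and by the powers of `log T` -/
def jet (T t : ℝ) (k : ℕ) : ℂ :=
  iteratedDeriv k riemannZeta (1 / 2 + t * Complex.I) /
    (riemannZeta (1 / 2 + t * Complex.I) * (Real.log T : ℂ) ^ k)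

/-- the power series with the derivatives `x k` at zero -/
def f (x : ℕ → ℂ) (z : ℂ) : ℂ := ∑' k : ℕ, x k * z ^ k / k.factorial

/-- the derivatives of `f x` at `is`, divided by the value -/
def move (s : ℝ) (x : ℕ → ℂ) (k : ℕ) : ℂ :=
  iteratedDeriv k (f x) (s * Complex.I) / f x (s * Complex.I)

/-- the shifted moment in the window of centre `T` and width `D` -/
def Q (k : ℕ) (α T D : ℝ) : ℂ :=
  ∫ t : ℝ, riemannZeta (1 / 2 + Complex.I * α / Real.log T + Complex.I * t) ^ k *
    riemannZeta (1 / 2 + Complex.I * α / Real.log T - Complex.I * t) ^ k * (weight T D t : ℂ)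

theorem Q_eq (k : ℕ) (α T D : ℝ) :
    Q k α T D = Run7.h563.LS.SM k T D (α / Real.log T) (-α / Real.log T) := by
  unfold Q Run7.h563.LS.SM
  refine integral_congr_ae (Eventually.of_forall fun t => ?_)
  simp only
  have e1 : (1 / 2 + Complex.I * α / Real.log T + Complex.I * t : ℂ) =
      Run7.h563.LS.sp (t + α / Real.log T) := by
    unfold Run7.h563.LS.sp; push_cast; ring
  have e2 : (1 / 2 + Complex.I * α / Real.log T - Complex.I * t : ℂ) =
      (starRingEnd ℂ) (Run7.h563.LS.sp (t + -α / Real.log T)) := by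
    unfold Run7.h563.LS.sp
    rw [map_add, map_mul, Complex.conj_ofReal, Complex.conj_ofReal, Complex.conj_I]
    push_cast; ring
  have e3 : riemannZeta ((starRingEnd ℂ) (Run7.h563.LS.sp (t + -α / Real.log T))) =
      (starRingEnd ℂ) (riemannZeta (Run7.h563.LS.sp (t + -α / Real.log T))) :=
    riemannZeta_conj _
  rw [e1, e2, e3]
  rfl

theorem Q_zero (k : ℕ) (T D : ℝ) :
    Q k 0 T D = (Run7.h563.LS.JB (2 * (k : ℝ)) T D (1 / 2) : ℂ) := by
  rw [Q_eq, zero_div, neg_zero, zero_div]
  unfold Run7.h563.LS.SM Run7.h563.LS.JB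
  rw [← integral_complex_ofReal]
  refine integral_congr_ae (Eventually.of_forall fun t => ?_)
  simp only
  rw [add_zero, Run7.h563.LS.rpow_two_mul k (norm_nonneg _)]
  have e : Run7.h563.LS.sp t = ((1 / 2 : ℝ) : ℂ) + (t : ℂ) * Complex.I := rfl
  rw [e, ← mul_pow, Complex.mul_conj, Complex.normSq_eq_norm_sq]
  push_cast
  ring

/-- **The microscopic landscape of zeta under the moment measures, and the shifted moments.** -/
theorem result (β : ℝ) (hβ : 0 < β) (T D : ℕ → ℝ) (hT : Tendsto T atTop atTop) (hD : ∀ j, 0 < D j)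
    (hD1 : Tendsto (fun j => D j * √(Real.log (T j))) atTop atTop)
    (hD2 : ∀ᶠ j in atTop, D j ≤ T j / (2 * Real.log (T j))) :
    ∃ φ : ℕ → ℕ, StrictMono φ ∧ ∃ ν : Measure (ℕ → ℂ), IsProbabilityMeasure ν ∧
      -- the laws of the normalised derivatives converge
      (∀ F : BoundedContinuousFunction (ℕ → ℂ) ℝ,
        Tendsto (fun j => mean β (T (φ j)) (D (φ j)) fun t => F (jet (T (φ j)) t)) atTop
          (𝓝 (∫ x, F x ∂ν))) ∧
      -- the limit is a random entire function of exponential type at most one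
      (∀ᵐ x ∂ν, Differentiable ℂ (f x) ∧ (∀ k, iteratedDeriv k (f x) 0 = x k) ∧ f x 0 = 1 ∧
        (∀ b : ℝ, 1 < b → ∃ C : ℝ, ∀ z : ℂ, ‖f x z‖ ≤ C * Real.exp (b * ‖z‖)) ∧
        ∀ z : ℂ, f x (-z) = Complex.exp z * (starRingEnd ℂ) (f x ((starRingEnd ℂ) z))) ∧
      -- moments of the derivatives
      (∀ (k : ℕ) (ρ σ : ℝ), 0 < ρ → 0 < σ → ∫⁻ x, ENNReal.ofReal (‖x k‖ ^ β) ∂ν ≤
        ENNReal.ofReal ((k.factorial / ρ ^ k) ^ β * ((ρ + σ) / σ) ^ 2 * Real.exp (β * (ρ + σ)))) ∧
      -- exact invariance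
      (∀ (s : ℝ) (g : (ℕ → ℂ) → ENNReal), Measurable g →
        ∫⁻ x, ENNReal.ofReal (‖f x (s * Complex.I)‖ ^ β) * g (move s x) ∂ν = ∫⁻ x, g x ∂ν) ∧
      -- the shifted moments
      ∀ k : ℕ, β = 2 * k → ∀ α : ℝ,
        Tendsto (fun j => Q k α (T (φ j)) (D (φ j)) / Q k 0 (T (φ j)) (D (φ j))) atTop
          (𝓝 (∫ x, f x (2 * Complex.I * α) ^ k ∂ν)) := by
  have hW : Run7.h563.LS.Win T D := by
    refine ⟨hT, hD, ?_, hD2⟩
    have h1 : Tendsto (fun j => (D j * √(Real.log (T j))) ^ 2) atTop atTop :=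
      (tendsto_pow_atTop two_ne_zero).comp hD1
    refine h1.congr' ?_
    filter_upwards [hT.eventually_ge_atTop 1] with j hj
    rw [mul_pow, Real.sq_sqrt (Real.log_nonneg hj)]
  obtain ⟨φ, hφ, ν, hν, hl, hx, hm, hinv⟩ := Run7.h563.LS.limit_laws hβ hW
  have ht : ∀ᵐ x ∂ν, Run7.h563.LS.Tame x := by
    filter_upwards [hx] with x hx
    exact hx.2.1 2 one_lt_two
  have hf : ∀ x : ℕ → ℂ, f x = Run7.h563.LS.ent x := fun x => rfl
  refine ⟨φ, hφ, ν, hν, fun F => ?_, ?_, fun k ρ σ hρ hσ => ?_, fun s g hg => ?_, fun k hk α => ?_⟩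
  · refine (hl F).congr fun j => ?_
    unfold Run7.h563.LS.PM
    rw [integral_withDensity_eq_integral_toReal_smul
      (Run7.h563.LS.dn_cont hβ _ _).measurable.ennreal_ofReal
      (Eventually.of_forall fun t => ENNReal.ofReal_lt_top)]
    unfold mean
    rw [← integral_div]
    refine integral_congr_ae (Eventually.of_forall fun t => ?_)
    simp only
    rw [ENNReal.toReal_ofReal (Run7.h563.LS.dn_nonneg _ _ _ _)]
    have e1 : Run7.h563.LS.sp t = 1 / 2 + t * Complex.I := by
      unfold Run7.h563.LS.sp; push_cast; ring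
    have e2 : Run7.h563.LS.XN (Real.log (T (φ j))) t = jet (T (φ j)) t := by
      funext k
      unfold Run7.h563.LS.XN jet
      rw [e1]
    have e3 : Run7.h563.LS.JB β (T (φ j)) (D (φ j)) (1 / 2) =
        ∫ t : ℝ, ‖riemannZeta (1 / 2 + t * Complex.I)‖ ^ β * weight (T (φ j)) (D (φ j)) t := by
      unfold Run7.h563.LS.JB
      refine integral_congr_ae (Eventually.of_forall fun t => ?_)
      simp only
      have e : (((1 / 2 : ℝ) : ℂ) + (t : ℂ) * Complex.I) = 1 / 2 + t * Complex.I := by push_cast; ring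
      rw [e]
      rfl
    rw [e2, smul_eq_mul]
    unfold Run7.h563.LS.dn
    rw [e1, e3]
    have e4 : Q97.MM.wt (T (φ j)) (D (φ j)) t = weight (T (φ j)) (D (φ j)) t := rfl
    rw [e4]
    ring
  · filter_upwards [hx, ht] with x hx htx
    obtain ⟨h0, hg, hfe⟩ := hx
    refine ⟨Run7.h563.LS.ent_diff htx, fun k => ?_, ?_, fun b hb => ?_, fun z =>
      Run7.h563.LS.ent_fe htx hfe z⟩
    · rw [hf, Run7.h563.LS.ent_iter htx, Run7.h563.LS.ent_zero]
      rfl
    · rw [hf, Run7.h563.LS.ent_zero, h0]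
    · obtain ⟨C, hC⟩ := hg b hb
      exact ⟨C, fun z => Run7.h563.LS.ent_type hC z⟩
  · refine (hm ρ σ hρ hσ k).trans (le_of_eq ?_)
    unfold Run7.h563.LS.MC
    congr 1
    rw [add_zero, add_zero, one_mul]
    ring
  · rw [← hinv s g hg]
    refine lintegral_congr_ae ?_
    filter_upwards [ht] with x htx
    have e1 : f x (s * Complex.I) = Run7.h563.LS.DD s x 0 := (Run7.h563.LS.DD_eq_ent s x).symm
    have e2 : move s x = Run7.h563.LS.SS s x := by
      funext k
      unfold move Run7.h563.LS.SS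
      rw [Run7.h563.LS.DD_ent htx s k, Run7.h563.LS.DD_eq_ent s x]
      rfl
    rw [e1, e2]
  · subst hk
    have hk1 : 1 ≤ k := by
      rcases Nat.eq_zero_or_pos k with h | h
      · subst h; simp at hβ
      · exact h
    have h0 : ∀ᵐ x ∂ν, x 0 = 1 := by filter_upwards [hx] with x hx; exact hx.1
    have h1 := Run7.h563.LS.shifted_lim hk1 (hW.sub hφ.tendsto_atTop) hl ht h0 α (-α)
    have e1 : ∫ x, f x (2 * Complex.I * α) ^ k ∂ν = ∫ x, Run7.h563.LS.DD (α - -α) x 0 ^ k ∂ν := by
      refine integral_congr_ae (Eventually.of_forall fun x => ?_)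
      simp only
      rw [Run7.h563.LS.DD_eq_ent, hf]
      congr 2
      push_cast
      ring
    rw [e1]
    refine h1.congr fun j => ?_
    rw [Q_eq, Q_zero k]

end

end Pool.Agent.Results.MP_069854_nt.LandscapeOfShifts
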