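import Pool.Agent.Run7.h290.SH.P
import Pool.Agent.N748.MJ.Fin

set_option autoImplicit false

/-!
# MP_069854_nt: the phases of shifted values near the critical line under the shifted moment measures

The integrand of the problem is `ζ₁^k conj(ζ₂)^k = |ζ₁ ζ₂|^k (w₁ / w₂)^k`, with `w_j = ζ_j/|ζ_j|` the phases of two shifted values.
Here is the joint law of the phases of several shifted values, near the critical line.

Let `δ(T) → 0+` with `δ log T / log² (1/δ) → ∞`, and `ζ_j = ζ(1/2 + δ + i(t + h_j))`, `h_j = h_j(T)`, `1 ≤ j ≤ m`.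

* Suppose that `∑ n_j n_l log |ζ(1 + 2δ + i(h_j - h_l))| → ∞` for all integer vectors `n ≠ 0`, and `|h_j| ≤ T^(1/2)`. Then for all
  real `k_j ≥ 0` and `V > ∑ k_j`, the phases `(w_1, …, w_m)` are, under the measure `∏ |ζ_j|^(2 k_j) dt` on the points of
  `[0, T]` at which no `|ζ_j|` is larger than `(2δ)^(-V)`, in the limit independent and uniformly distributed on the circle. For
  `k = 0` this also holds over all of `[0, T]`.
* The supposition holds if the shifts are bounded and `|h_j - h_l| / δ → ∞` for `j ≠ l`: the phases are independent as soon as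
  the shifts are at distances which are large compared with the distance to the critical line.
-/

open Filter Topology MeasureTheory

namespace Pool.Agent.Results.MP_069854_nt.PhasesOfShifts

/-- `ζ(1/2 + δ + it)` -/
noncomputable def z (δ t : ℝ) : ℂ := riemannZeta (1 / 2 + δ + Complex.I * (t : ℂ))

/-- `∑ n_j n_l log |ζ(1 + 2δ + i(h_j - h_l))|` -/
noncomputable def quad {m : ℕ} (n : Fin m → ℤ) (h : Fin m → ℝ) (δ : ℝ) : ℝ :=
  ∑ j, ∑ l, (n j : ℝ) * n l * Real.log ‖riemannZeta (1 + 2 * δ + Complex.I * ((h j - h l : ℝ) : ℂ))‖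

/-- the points of `[0, T]` at which no shifted value is larger than `(2δ)^(-V)` -/
def good {m : ℕ} (V δ : ℝ) (h : Fin m → ℝ) (T : ℝ) : Set ℝ :=
  {t : ℝ | t ∈ Set.Icc 0 T ∧ ∀ j, ‖z δ (t + h j)‖ ≤ (2 * δ) ^ (-V)}

/-- the weight `∏ |ζ(1/2 + δ + i(t + h_j))|^(2 k_j)` -/
noncomputable def weight {m : ℕ} (k : Fin m → ℝ) (δ : ℝ) (h : Fin m → ℝ) (t : ℝ) : ℝ := ∏ j, ‖z δ (t + h j)‖ ^ (2 * k j)

/-- the phases (zero at the zeros of zeta) -/
noncomputable def phase {m : ℕ} (δ : ℝ) (h : Fin m → ℝ) (t : ℝ) : Fin m → ℂ :=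
  fun j => z δ (t + h j) / (‖z δ (t + h j)‖ : ℂ)

/-- the mean of `F(e(θ_1), …, e(θ_m))` over `θ` in the unit cube, `e(x) = exp(2πix)` -/
noncomputable def tmean {m : ℕ} (F : (Fin m → ℂ) → ℂ) : ℂ :=
  ∫ θ in Set.univ.pi (fun _ : Fin m => Set.Ioc (0:ℝ) 1), F fun j => Complex.exp (2 * Real.pi * Complex.I * (θ j : ℂ))

theorem result (δ : ℝ → ℝ) (hδ0 : ∀ᶠ T in atTop, 0 < δ T) (hδ : Tendsto δ atTop (𝓝 0))
    (hδL : Tendsto (fun T : ℝ => δ T * Real.log T / Real.log (1 / δ T) ^ 2) atTop atTop) (m : ℕ) (h : ℝ → Fin m → ℝ) :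
    ((∃ B : ℝ, ∀ᶠ T : ℝ in atTop, ∀ j, |h T j| ≤ B) →
      (∀ i l : Fin m, i ≠ l → Tendsto (fun T => |h T i - h T l| / δ T) atTop atTop) →
      ∀ n : Fin m → ℤ, n ≠ 0 → Tendsto (fun T => quad n (h T) (δ T)) atTop atTop) ∧
    ((∀ᶠ T : ℝ in atTop, ∀ j, |h T j| ≤ T ^ ((1:ℝ) / 2)) →
      (∀ n : Fin m → ℤ, n ≠ 0 → Tendsto (fun T => quad n (h T) (δ T)) atTop atTop) →
      ∀ F : (Fin m → ℂ) → ℂ, Continuous F →
        (∀ k : Fin m → ℝ, (∀ j, 0 ≤ k j) → ∀ V : ℝ, ∑ j, k j < V →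
          (∀ᶠ T : ℝ in atTop, 0 < ∫ t in good V (δ T) (h T) T, weight k (δ T) (h T) t) ∧
          Tendsto (fun T : ℝ => (∫ t in good V (δ T) (h T) T, ((weight k (δ T) (h T) t : ℝ) : ℂ) * F (phase (δ T) (h T) t)) /
            ((∫ t in good V (δ T) (h T) T, weight k (δ T) (h T) t : ℝ) : ℂ)) atTop (𝓝 (tmean F))) ∧
        Tendsto (fun T : ℝ => (1 / (T : ℂ)) * ∫ t in Set.Icc 0 T, F (phase (δ T) (h T) t)) atTop (𝓝 (tmean F))) := by
  have ez : ∀ d t : ℝ, z d t = riemannZeta (Pool.Agent.N748.MG.pw d t) := by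
    intro d t
    unfold z Pool.Agent.N748.MG.pw
    congr 1
    ring
  have eq : ∀ (n : Fin m → ℤ) (H : Fin m → ℝ) (d : ℝ), quad n H d = Pool.Agent.Run7.h290.SH.Qf n H d := by
    intro n H d
    unfold quad Pool.Agent.Run7.h290.SH.Qf Pool.Agent.Run7.h290.SH.Zo
    refine Finset.sum_congr rfl fun j _ => Finset.sum_congr rfl fun l _ => ?_
    congr 4
    push_cast
    ring
  have hd : Pool.Agent.N748.MG.Ad δ := ⟨hδ0, hδ, hδL⟩
  have egood : ∀ (V d : ℝ) (H : Fin m → ℝ) (T : ℝ), good V d H T = Pool.Agent.Run7.h290.SH.Gs V H d T := by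
    intro V d H T
    unfold good Pool.Agent.Run7.h290.SH.Gs Pool.Agent.N748.MG.mz
    simp_rw [ez]
  have ew : ∀ (k : Fin m → ℝ) (d : ℝ) (H : Fin m → ℝ) (t : ℝ), weight k d H t = Pool.Agent.N748.MJ.SM.G k H d t := by
    intro k d H t
    unfold weight Pool.Agent.N748.MJ.SM.G Pool.Agent.N748.MG.mz
    simp_rw [ez]
  have ep : ∀ (d : ℝ) (H : Fin m → ℝ) (t : ℝ), phase d H t = fun j => Pool.Agent.Run7.h290.SH.zj d t (H j) /
      (‖Pool.Agent.Run7.h290.SH.zj d t (H j)‖ : ℝ) := by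
    intro d H t
    unfold phase Pool.Agent.Run7.h290.SH.zj
    simp_rw [ez]
  refine ⟨?_, ?_⟩
  · rintro ⟨B, hB⟩ hs n hn
    simp_rw [eq]
    exact Pool.Agent.Run7.h290.SH.Qf_top Pool.Agent.N748.MJ.LZB.main hδ0 hδ hB hs hn
  · intro hh hQ F hF
    simp_rw [eq] at hQ
    refine ⟨fun k hk V hV => ?_, ?_⟩
    · have h1 := Pool.Agent.Run7.h290.SH.phasesF Pool.Agent.N748.MJ.jmF Pool.Agent.N748.MJ.posF Pool.Agent.N748.MJ.LZB.main
        hd hh hQ hk hV hF
      simp_rw [ew, egood, ep]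
      exact h1
    · have h1 := Pool.Agent.Run7.h290.SH.phasesF0 Pool.Agent.N748.MJ.jmF Pool.Agent.N748.MJ.posF Pool.Agent.N748.MJ.LZB.main
        hd hh hQ hF
      simp_rw [ep]
      exact h1

end Pool.Agent.Results.MP_069854_nt.PhasesOfShifts
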